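import Pool.Agent.Q204.TFM.El2

/-!
# The electronic Thomas–Fermi energy increases under uniform dilation
-/

set_option autoImplicit false
open MeasureTheory Set
open scoped Pointwise

namespace Pool.Agent.Results.MP_405077_mp.ElectronicEnergyIncreases

/-- Euclidean three-space. -/
abbrev Space := EuclideanSpace ℝ (Fin 3)

/-- `ρ ≥ 0` and `ρ ∈ L¹ ∩ L^{5/3}`. -/
def Admissible (ρ : Space → ℝ) : Prop :=
  (∀ x, 0 ≤ ρ x) ∧ Integrable ρ ∧ Integrable (fun x => ρ x ^ (5/3 : ℝ))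

/-- The repulsion `U` of the nuclei. -/
noncomputable def repulsion {k : ℕ} (z : Fin k → ℝ) (R : Fin k → Space) : ℝ :=
  ∑ i, ∑ j ∈ Finset.Ioi i, z i * z j / ‖R i - R j‖

/-- The Thomas–Fermi functional. -/
noncomputable def functional {k : ℕ} (γ : ℝ) (z : Fin k → ℝ) (R : Fin k → Space)
    (ρ : Space → ℝ) : ℝ :=
  3/5 * γ * (∫ x, ρ x ^ (5/3 : ℝ)) - (∫ x, (∑ j, z j / ‖x - R j‖) * ρ x)
    + 1/2 * (∫ x, ∫ y, ρ x * ρ y / ‖x - y‖) + repulsion z R

/-- The values of the functional on the admissible densities with integral `lam`. -/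
def energies {k : ℕ} (γ : ℝ) (z : Fin k → ℝ) (R : Fin k → Space) (lam : ℝ) : Set ℝ :=
  {E | ∃ ρ, Admissible ρ ∧ (∫ x, ρ x) = lam ∧ functional γ z R ρ = E}

/-- The electronic energy `e(λ) = E(λ) - U`, with `E(λ)` the infimum of the functional. -/
noncomputable def electronic {k : ℕ} (γ : ℝ) (z : Fin k → ℝ) (R : Fin k → Space) (lam : ℝ) : ℝ :=
  sInf (energies γ z R lam) - repulsion z R

open Pool.Agent.Helper557.TFP Pool.Agent.H9R2.TF Pool.Agent.Q204.TFM

lemma functional_smul {k : ℕ} {γ : ℝ} (hγ : 0 < γ) (z : Fin k → ℝ) (R : Fin k → Space)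
    {s : Space → ℝ} (hs : ∀ x, 0 ≤ s x) :
    functional γ z R (fun x => γ ^ 3 * s x) = γ ^ 6 * xi (fun j => z j / γ ^ 3) R s := by
  have e1 : ∫ x, (γ ^ 3 * s x) ^ (5/3 : ℝ) = γ ^ 5 * ∫ x, s x ^ (5/3 : ℝ) := by
    rw [← integral_const_mul]
    refine integral_congr_ae (Filter.Eventually.of_forall fun x => ?_)
    simp only
    rw [Real.mul_rpow (by positivity) (hs x), ← Real.rpow_natCast γ 3, ← Real.rpow_mul hγ.le]
    norm_num
  have e2 : ∫ x, (∑ j, z j / ‖x - R j‖) * (γ ^ 3 * s x) =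
      γ ^ 6 * ∫ x, (∑ j, z j / γ ^ 3 / ‖x - R j‖) * s x := by
    rw [← integral_const_mul]
    refine integral_congr_ae (Filter.Eventually.of_forall fun x => ?_)
    simp only
    rw [Finset.sum_mul, Finset.sum_mul, Finset.mul_sum]
    refine Finset.sum_congr rfl fun j _ => ?_
    field_simp
  have e3 : (∫ x, ∫ y, (γ ^ 3 * s x) * (γ ^ 3 * s y) / ‖x - y‖) =
      γ ^ 6 * ∫ x, ∫ y, s x * s y / ‖x - y‖ := by
    rw [← integral_const_mul]
    refine integral_congr_ae (Filter.Eventually.of_forall fun x => ?_)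
    simp only
    rw [← integral_const_mul]
    refine integral_congr_ae (Filter.Eventually.of_forall fun y => ?_)
    simp only
    ring
  have e4 : repulsion z R = γ ^ 6 * repulsion (fun j => z j / γ ^ 3) R := by
    unfold repulsion
    rw [Finset.mul_sum]
    refine Finset.sum_congr rfl fun i _ => ?_
    rw [Finset.mul_sum]
    refine Finset.sum_congr rfl fun j _ => ?_
    field_simp
  unfold functional xi
  rw [e1, e2, e3, e4]
  unfold repulsion
  ring

lemma energies_eq {k : ℕ} {γ : ℝ} (hγ : 0 < γ) (z : Fin k → ℝ) (R : Fin k → Space) (lam : ℝ) :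
    energies γ z R lam = (γ ^ 6) • {E | ∃ ρ, Adm ρ ∧ ∫ x, ρ x = lam / γ ^ 3 ∧
      xi (fun j => z j / γ ^ 3) R ρ = E} := by
  have h3 : (0 : ℝ) < γ ^ 3 := by positivity
  ext E
  rw [mem_smul_set]
  constructor
  · rintro ⟨ρ, hρ, hm, hE⟩
    have hρ' : AA (fun x => ρ x / γ ^ 3) := by
      refine ⟨fun x => div_nonneg (hρ.1 x) h3.le, hρ.2.1.div_const _, ?_⟩
      refine (hρ.2.2.div_const ((γ ^ 3) ^ (5/3 : ℝ))).congr
        (Filter.Eventually.of_forall fun x => ?_)
      simp only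
      rw [Real.div_rpow (hρ.1 x) h3.le]
    obtain ⟨σ, hσ, hae⟩ := AA_mod hρ'
    have hρe : ρ = fun x => γ ^ 3 * (ρ x / γ ^ 3) := by
      funext x
      field_simp
    refine ⟨_, ⟨σ, hσ, ?_, rfl⟩, ?_⟩
    · rw [← integral_congr_ae hae, integral_div, hm]
    · have h1 := functional_smul hγ z R hρ'.1
      rw [← hρe, hE] at h1
      have h2 : xi (fun j => z j / γ ^ 3) R (fun x => ρ x / γ ^ 3) =
          xi (fun j => z j / γ ^ 3) R σ := by
        have e1 : ∀ τ, xi (fun j => z j / γ ^ 3) R τ =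
            FE (fun j => z j / γ ^ 3) R τ + Urep (fun j => z j / γ ^ 3) R := fun τ => rfl
        rw [e1, e1, FE_congr hae]
      rw [smul_eq_mul, ← h2, h1]
  · rintro ⟨_, ⟨σ, hσ, hm, rfl⟩, rfl⟩
    refine ⟨fun x => γ ^ 3 * σ x, ⟨fun x => mul_nonneg h3.le (hσ.2.1 x),
      hσ.2.2.1.const_mul _, ?_⟩, ?_, functional_smul hγ z R hσ.2.1⟩
    · refine (hσ.2.2.2.const_mul ((γ ^ 3) ^ (5/3 : ℝ))).congr
        (Filter.Eventually.of_forall fun x => ?_)
      simp only
      rw [Real.mul_rpow h3.le (hσ.2.1 x)]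
    · rw [integral_const_mul, hm]
      field_simp

lemma repulsion_eq {k : ℕ} {γ : ℝ} (hγ : 0 < γ) (z : Fin k → ℝ) (R : Fin k → Space) :
    repulsion z R = γ ^ 6 * Urep (fun j => z j / γ ^ 3) R := by
  unfold repulsion Urep
  rw [Finset.mul_sum]
  refine Finset.sum_congr rfl fun i _ => ?_
  rw [Finset.mul_sum]
  refine Finset.sum_congr rfl fun j _ => ?_
  field_simp

lemma electronic_eq {k : ℕ} {γ : ℝ} (hγ : 0 < γ) (z : Fin k → ℝ) (R : Fin k → Space) (lam : ℝ) :
    electronic γ z R lam = γ ^ 6 * el (fun j => z j / γ ^ 3) R (lam / γ ^ 3) := by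
  unfold electronic el en
  rw [energies_eq hγ, Real.sInf_smul_of_nonneg (by positivity), repulsion_eq hγ, smul_eq_mul]
  ring

/-- **The electronic energy increases under uniform dilation.**  For all `γ > 0`, all charges
`z j ≥ 0`, all positions `R j` and all `lam ≥ 0` the function `l ↦ e(lam, l)` is monotone
increasing on `(0, ∞)`. -/
theorem result : ∀ (k : ℕ) (γ : ℝ), 0 < γ → ∀ (z : Fin k → ℝ), (∀ j, 0 ≤ z j) →
    ∀ (R : Fin k → Space) (lam : ℝ), 0 ≤ lam →
    (∀ l : ℝ, (energies γ z (fun j => l • R j) lam).Nonempty ∧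
      BddBelow (energies γ z (fun j => l • R j) lam)) ∧
    ∀ l₁ l₂ : ℝ, 0 < l₁ → l₁ ≤ l₂ →
      electronic γ z (fun j => l₁ • R j) lam ≤ electronic γ z (fun j => l₂ • R j) lam := by
  intro k γ hγ z hz R lam hlam
  have hz' : ∀ j, 0 ≤ z j / γ ^ 3 := fun j => div_nonneg (hz j) (by positivity)
  have hl' : 0 ≤ lam / γ ^ 3 := by positivity
  refine ⟨fun l => ?_, fun l₁ l₂ h₁ h₂ => ?_⟩
  · rw [energies_eq hγ]
    refine ⟨(en_nonempty _ _ _ hl').smul_set, ?_⟩
    exact (en_bdd _ hz' _ _).smul_of_nonneg (by positivity)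
  · rw [electronic_eq hγ, electronic_eq hγ]
    exact mul_le_mul_of_nonneg_left (el_mono hz' R hl' h₁ h₂) (by positivity)

end Pool.Agent.Results.MP_405077_mp.ElectronicEnergyIncreases
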